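import Pool.Agent.helper5.IH.Spec

/-!
# Row ih:NS24 (MP_45d809_mp), owner helper5: divisibility of `nS`
-/

set_option autoImplicit false

namespace Pool.Agent.IH
open Finset CT SYM

open Classical in
private theorem NS24_cnt (T X : Type) [Fintype T] [Fintype X] (P : T → Prop) (R : T → X → Prop)
    (h : ∀ x, Even (Nat.card {t // P t ∧ R t x})) :
    Even (Nat.card {t // P t ∧ Odd (Nat.card {x // R t x})}) := by
  have e1 : ∀ x, Nat.card {t // P t ∧ R t x} = ∑ t ∈ univ.filter P, if R t x then 1 else 0 := by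
    intro x
    rw [Nat.card_eq_fintype_card, Fintype.card_subtype, ← card_filter, filter_filter]
  have e2 : ∀ t, Nat.card {x // R t x} = ∑ x, if R t x then 1 else 0 := by
    intro t
    rw [Nat.card_eq_fintype_card, Fintype.card_subtype, card_filter]
  have e3 : Even (∑ t ∈ univ.filter P, Nat.card {x // R t x}) := by
    rw [sum_congr rfl fun t _ => e2 t, sum_comm]
    refine even_sum _ fun x _ => ?_
    rw [← e1]
    exact h x
  rw [even_sum_iff_even_card_odd, filter_filter] at e3
  rw [Nat.card_eq_fintype_card, Fintype.card_subtype]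
  exact e3

theorem NS24 (hNSD : NSD_stmt) (hALR : ALR_stmt) (hGXC : GXC_stmt) : NS24_stmt := by
  intro V _ _ H
  have h1 : ∀ S : Finset V, S.card + 1 ≤ Fintype.card V → 2 ∣ nS H S := by
    intro S hS
    obtain ⟨v, hv⟩ : ∃ v, v ∉ S := by
      by_contra hc
      push Not at hc
      have : S = univ := eq_univ_iff_forall.2 hc
      rw [this, card_univ] at hS
      omega
    rw [hNSD V H S v hv]
    exact ⟨nS H (insert v S) + al H S v, by ring⟩
  intro S
  refine ⟨h1 S, fun hS => ?_⟩
  obtain ⟨v, hv⟩ : ∃ v, v ∉ S := by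
    by_contra hc
    push Not at hc
    have : S = univ := eq_univ_iff_forall.2 hc
    rw [this, card_univ] at hS
    omega
  have hcard : (insert v S).card = S.card + 1 := card_insert_of_notMem hv
  have h2 : 2 ∣ nS H (insert v S) := h1 _ (by omega)
  have h3 : Even (al H S v) := by
    have e1 : al H S v = Nat.card {t : V → Fin 3 // ((∀ w ∈ insert v S, t w = 0) ∧ Even (mu H t)) ∧
        Odd (Nat.card {x // H.Adj v x ∧ Gx H t x})} := by
      unfold al
      refine Nat.card_congr (Equiv.subtypeEquivRight fun t => ?_)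
      constructor
      · rintro ⟨a, b, c⟩
        exact ⟨⟨a, b⟩, (hALR V H t v (a v (mem_insert_self _ _))).1 c⟩
      · rintro ⟨⟨a, b⟩, c⟩
        exact ⟨a, b, (hALR V H t v (a v (mem_insert_self _ _))).2 c⟩
    rw [e1]
    refine NS24_cnt (V → Fin 3) V _ (fun t x => H.Adj v x ∧ Gx H t x) fun x => ?_
    by_cases hx : H.Adj v x
    · have e2 : Nat.card {t : V → Fin 3 // ((∀ w ∈ insert v S, t w = 0) ∧ Even (mu H t)) ∧
          H.Adj v x ∧ Gx H t x} =
          Nat.card {t : V → Fin 3 // (∀ w ∈ insert v S, t w = 0) ∧ Even (mu H t) ∧ Gx H t x} := by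
        refine Nat.card_congr (Equiv.subtypeEquivRight fun t => ?_)
        constructor
        · rintro ⟨⟨a, b⟩, -, c⟩
          exact ⟨a, b, c⟩
        · rintro ⟨a, b, c⟩
          exact ⟨⟨a, b⟩, hx, c⟩
      rw [e2, hGXC V H (insert v S) x]
      split_ifs with hxs
      · exact ⟨0, rfl⟩
      · have h4 : (insert x (insert v S)).card = S.card + 2 := by
          rw [card_insert_of_notMem hxs, hcard]
        exact even_iff_two_dvd.2 (h1 _ (by omega))
    · have e2 : Nat.card {t : V → Fin 3 // ((∀ w ∈ insert v S, t w = 0) ∧ Even (mu H t)) ∧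
          H.Adj v x ∧ Gx H t x} = 0 := by
        have : IsEmpty {t : V → Fin 3 // ((∀ w ∈ insert v S, t w = 0) ∧ Even (mu H t)) ∧
          H.Adj v x ∧ Gx H t x} := ⟨fun t => hx t.2.2.1⟩
        exact Nat.card_of_isEmpty
      rw [e2]
      exact ⟨0, rfl⟩
  obtain ⟨r, hr⟩ := h2
  obtain ⟨s, hs⟩ := h3
  rw [hNSD V H S v hv, hr, hs]
  exact ⟨r + s, by ring⟩

end Pool.Agent.IH
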